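import Mathlib
import Pool.Agent.W41.MU24
import Pool.Agent.W36.GV.GV5
import Pool.Agent.W36.GK.K21
import Pool.Agent.Run7.h17.Coprime

/-! Collatz-invariant sets in the classes of almost all moduli. -/

set_option autoImplicit false

namespace Pool.Agent.Run7.h15.CB

open Finset Filter Topology
open Pool.Agent.H320R2.PD Pool.Agent.H499R2.ND Pool.Agent.H499R2.CO Pool.Agent.W41.FU Pool.Agent.W41
open Pool.Agent.W41.MU (tw joint MulB tw_char tw_norm MulSet AddFun gch gch_mul)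
open Pool.Agent.Run7.h17.BDH (cs Eqd bdh copr1)

/-- `exp (2 π i θ)` -/
noncomputable def e (θ : ℝ) : ℂ := Complex.exp (2 * Real.pi * θ * Complex.I)

theorem e_norm (θ : ℝ) : ‖e θ‖ = 1 := by
  unfold e
  rw [show (2 * (Real.pi : ℂ) * (θ : ℂ) * Complex.I) = ((2 * Real.pi * θ : ℝ) : ℂ) * Complex.I by push_cast; ring]
  exact Complex.norm_exp_ofReal_mul_I _

theorem e_add (a b : ℝ) : e (a + b) = e a * e b := by
  unfold e
  rw [← Complex.exp_add]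
  congr 1
  push_cast
  ring

/-- the weights -/
def Wt (k : ℕ) (w : ℕ → ℂ) : Prop :=
  (∃ (g : ℕ → ℂ) (α : ℝ), MulB g ∧ ∀ n, w n = g n * e (α * n)) ∨
  (∃ P : Polynomial ℝ, P.natDegree ≤ k ∧ ∀ n, w n = e (P.eval (n : ℝ)))

theorem Wt_norm {k : ℕ} {w : ℕ → ℂ} (h : Wt k w) (n : ℕ) : ‖w n‖ ≤ 1 := by
  rcases h with ⟨g, α, hg, h⟩ | ⟨P, -, h⟩
  · rw [h, norm_mul, e_norm, mul_one]
    exact hg.1 n
  · rw [h, e_norm]

/-- an additive character on the integers -/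
theorem char_e {r : ℕ} [NeZero r] (χ : AddChar (ZMod r) ℂ) (n : ℕ) :
    χ (n : ZMod r) = e ((χ 1).arg / (2 * Real.pi) * n) := by
  have h1 : χ (n : ZMod r) = (χ 1) ^ n := by
    have : (n : ZMod r) = n • (1 : ZMod r) := by rw [nsmul_eq_mul, mul_one]
    rw [this, AddChar.map_nsmul_eq_pow]
  have h2 : χ 1 = Complex.exp (((χ 1).arg : ℂ) * Complex.I) := by
    have := Complex.norm_mul_exp_arg_mul_I (χ 1)
    rw [χ.norm_apply, Complex.ofReal_one, one_mul] at this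
    exact this.symm
  rw [h1, h2, ← Complex.exp_nat_mul]
  unfold e
  have h3 : (χ 1).arg = (Complex.exp (((χ 1).arg : ℂ) * Complex.I)).arg := by rw [← h2]
  rw [← h3]
  congr 1
  have hpi : (Real.pi : ℂ) ≠ 0 := by exact_mod_cast Real.pi_ne_zero
  push_cast
  field_simp

/-- a residue class is a mean of characters -/
theorem class_le (F : ℕ → ℂ) {r : ℕ} (hr : 1 ≤ r) (b y : ℕ) {B : ℝ}
    (h : ∀ (_ : NeZero r) (χ : AddChar (ZMod r) ℂ), ‖∑ n ∈ Icc 1 y, F n * χ (n : ZMod r)‖ ≤ B) :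
    ‖∑ n ∈ Icc 1 y, if n % r = b % r then F n else 0‖ ≤ B := by
  haveI : NeZero r := ⟨by omega⟩
  have hr0 : (0 : ℝ) < r := by exact_mod_cast hr
  have hr0' : (r : ℂ) ≠ 0 := by exact_mod_cast hr0.ne'
  have e1 : (r : ℂ) * ∑ n ∈ Icc 1 y, (if n % r = b % r then F n else 0)
      = ∑ χ : AddChar (ZMod r) ℂ, χ (-(b : ZMod r)) * ∑ n ∈ Icc 1 y, F n * χ (n : ZMod r) := by
    rw [mul_sum]
    simp_rw [mul_sum]
    rw [sum_comm]
    apply sum_congr rfl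
    intro n _
    have h1 : ∑ χ : AddChar (ZMod r) ℂ, χ (-(b : ZMod r)) * (F n * χ (n : ZMod r))
        = F n * ∑ χ : AddChar (ZMod r) ℂ, χ ((n : ZMod r) - b) := by
      rw [mul_sum]
      apply sum_congr rfl
      intro χ _
      rw [sub_eq_add_neg, AddChar.map_add_eq_mul]
      ring
    rw [h1, AddChar.sum_apply_eq_ite]
    by_cases h2 : n % r = b % r
    · have h3 : ((n : ZMod r) - b) = 0 := by
        rw [sub_eq_zero]
        exact (ZMod.natCast_eq_natCast_iff' _ _ _).2 h2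
      rw [if_pos h2, if_pos h3]
      rw [ZMod.card]
      ring
    · have h3 : ¬ ((n : ZMod r) - b) = 0 := by
        rw [sub_eq_zero]
        intro h4
        exact h2 ((ZMod.natCast_eq_natCast_iff' _ _ _).1 h4)
      rw [if_neg h2, if_neg h3, mul_zero, mul_zero]
  have h2 : (r : ℝ) * ‖∑ n ∈ Icc 1 y, (if n % r = b % r then F n else 0)‖ ≤ r * B := by
    have h3 : (r : ℝ) * ‖∑ n ∈ Icc 1 y, (if n % r = b % r then F n else 0)‖
        = ‖(r : ℂ) * ∑ n ∈ Icc 1 y, (if n % r = b % r then F n else 0)‖ := by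
      rw [norm_mul, Complex.norm_natCast]
    rw [h3, e1]
    refine (norm_sum_le _ _).trans ?_
    calc ∑ χ : AddChar (ZMod r) ℂ, ‖χ (-(b : ZMod r)) * ∑ n ∈ Icc 1 y, F n * χ (n : ZMod r)‖
        ≤ ∑ χ : AddChar (ZMod r) ℂ, B := by
          apply sum_le_sum
          intro χ _
          rw [norm_mul, χ.norm_apply, one_mul]
          exact h inferInstance χ
      _ = r * B := by
          rw [sum_const, card_univ, AddChar.card_eq, ZMod.card, nsmul_eq_mul]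
  exact le_of_mul_le_mul_left h2 hr0

/-- the function in question -/
noncomputable def fn (s : ℤ) (S : Set ℤ) (δ : ℝ) (w : ℕ → ℂ) (n : ℕ) : ℂ := (bal s S δ (n : ℤ) : ℂ) * w n

theorem fn_norm {s : ℤ} (hs : s = 1 ∨ s = -1) {S : Set ℤ} {δ : ℝ} (hδ : HD s S δ) {w : ℕ → ℂ}
    (hw : ∀ n, ‖w n‖ ≤ 1) (n : ℕ) : ‖fn s S δ w n‖ ≤ 1 := by
  obtain ⟨h0, h1⟩ := HD_mem hs hδ
  unfold fn
  rw [norm_mul, Complex.norm_real, Real.norm_eq_abs]
  exact mul_le_one₀ (bal_abs h0 h1 _) (norm_nonneg _) (hw n)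

/-- all partial sums with characters -/
theorem part {s : ℤ} (hs : s = 1 ∨ s = -1) (k : ℕ) {κ : ℝ} (hκ : 0 < κ) :
    ∃ X0 : ℕ, ∀ S : Set ℤ, Inv 1 S → ∀ δ : ℝ, HD s S δ → ∀ w, Wt k w → ∀ x : ℕ, X0 ≤ x → ∀ y ≤ x,
      ∀ r : ℕ, ∀ (_ : NeZero r) (χ : AddChar (ZMod r) ℂ),
      ‖∑ n ∈ Icc 1 y, fn s S δ w n * χ (n : ZMod r)‖ ≤ κ * x := by
  obtain ⟨N1, hN1, h1⟩ := joint hs (show 0 < min κ 1 from lt_min hκ one_pos) (min_le_right _ _)
  obtain ⟨N2, h2⟩ := Pool.Agent.W36.GV.poly_orth (k := k + 1) (s := s)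
    (Pool.Agent.W36.GK.GN_all (Pool.Agent.W36.GU.Bal_hyp hs) (k + 1)) hs hκ
  obtain ⟨N3, hN3⟩ := exists_nat_ge (N1 / κ)
  refine ⟨N1 + N2 + N3, fun S hS δ hδ w hw x hx y hy r _ χ => ?_⟩
  obtain ⟨hd0, hd1⟩ := HD_mem hs hδ
  rcases hw with ⟨g, α, hg, hw⟩ | ⟨P, hP, hw⟩
  · have e1 : ∑ n ∈ Icc 1 y, fn s S δ w n * χ (n : ZMod r)
        = ∑ n ∈ Icc 1 y, tw (bal s S δ) (2 * Real.pi * α + (χ 1).arg) (n : ℤ) * g n := by
      apply sum_congr rfl
      intro n _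
      rw [← tw_char]
      unfold fn tw
      rw [hw]
      unfold e
      have e2 : (2 * (Real.pi : ℂ) * ((α * n : ℝ) : ℂ) * Complex.I)
          = ((2 * Real.pi * α * ((n : ℤ) : ℝ) : ℝ) : ℂ) * Complex.I := by
        push_cast; ring
      rw [e2]
      ring
    rw [e1]
    by_cases hy1 : N1 ≤ y
    · refine (h1 S hS δ hδ y hy1 _ g hg).trans ?_
      have : (y : ℝ) ≤ x := by exact_mod_cast hy
      have h3 : min κ 1 * (y : ℝ) ≤ κ * y := mul_le_mul_of_nonneg_right (min_le_left _ _) (Nat.cast_nonneg _)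
      have h4 : κ * (y : ℝ) ≤ κ * x := mul_le_mul_of_nonneg_left this hκ.le
      linarith
    · push Not at hy1
      have h3 : ‖∑ n ∈ Icc 1 y, tw (bal s S δ) (2 * Real.pi * α + (χ 1).arg) (n : ℤ) * g n‖ ≤ y := by
        refine (norm_sum_le _ _).trans ?_
        calc ∑ n ∈ Icc 1 y, ‖tw (bal s S δ) (2 * Real.pi * α + (χ 1).arg) (n : ℤ) * g n‖ ≤ ∑ n ∈ Icc 1 y, (1 : ℝ) := by
              apply sum_le_sum
              intro n _
              rw [norm_mul]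
              exact mul_le_one₀ (tw_norm (fun n => bal_abs hd0 hd1 n) _ _) (norm_nonneg _) (hg.1 _)
          _ = y := by rw [sum_const, Nat.card_Icc, nsmul_eq_mul, mul_one]; simp
      have h4 : (N1 : ℝ) ≤ κ * N3 := by
        rw [div_le_iff₀ hκ] at hN3
        linarith
      have h5 : (y : ℝ) ≤ N1 := by exact_mod_cast hy1.le
      have h6 : (N3 : ℝ) ≤ x := by exact_mod_cast (by omega : N3 ≤ x)
      have h7 : κ * (N3 : ℝ) ≤ κ * x := mul_le_mul_of_nonneg_left h6 hκ.le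
      linarith
  · set Q : Polynomial ℝ := P + Polynomial.C ((χ 1).arg / (2 * Real.pi)) * Polynomial.X with hQ
    have hQd : Q.natDegree ≤ k + 1 := by
      refine (Polynomial.natDegree_add_le _ _).trans ?_
      refine max_le (by omega) ?_
      refine (Polynomial.natDegree_C_mul_le _ _).trans ?_
      exact Polynomial.natDegree_X_le.trans (by omega)
    have h3 := h2 x (by omega) (bal s S δ) ⟨S, hS, δ, hδ, rfl⟩ 0 y (Nat.zero_le _) hy Q hQd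
    have e1 : ∑ n ∈ Icc 1 y, fn s S δ w n * χ (n : ZMod r)
        = ∑ n ∈ Ioc 0 y, (bal s S δ (n : ℕ) : ℂ) * Pool.Agent.W36.GV.ex (Q.eval (n : ℝ)) := by
      have : Icc 1 y = Ioc 0 y := by ext n; simp only [mem_Icc, mem_Ioc]; omega
      rw [this]
      apply sum_congr rfl
      intro n _
      unfold fn
      rw [hw, char_e, mul_assoc, ← e_add]
      congr 1
      rw [hQ, Polynomial.eval_add, Polynomial.eval_mul, Polynomial.eval_C, Polynomial.eval_X]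
      rfl
    rw [e1]
    exact h3

/-- the classes of bounded moduli -/
theorem eqd {s : ℤ} (hs : s = 1 ∨ s = -1) (k : ℕ) {κ : ℝ} (hκ : 0 < κ) :
    ∃ X0 : ℕ, ∀ S : Set ℤ, Inv 1 S → ∀ δ : ℝ, HD s S δ → ∀ w, Wt k w → ∀ x : ℕ, X0 ≤ x → ∀ q₀ : ℕ,
      Eqd (fn s S δ w) x q₀ κ := by
  obtain ⟨X0, h⟩ := part hs k hκ
  refine ⟨X0, fun S hS δ hδ w hw x hx q₀ b hb _ c y hy => ?_⟩
  unfold cs
  by_cases hc : c < b
  · have h1 := class_le (fn s S δ w) hb c y (fun hr χ => h S hS δ hδ w hw x hx y hy b hr χ)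
    rw [Nat.mod_eq_of_lt hc] at h1
    exact h1
  · have h1 : ∑ n ∈ Icc 1 y, (if n % b = c then fn s S δ w n else 0) = 0 := by
      apply sum_eq_zero
      intro n _
      rw [if_neg]
      intro h2
      have := Nat.mod_lt n (by omega : 0 < b)
      omega
    rw [h1, norm_zero]
    positivity

/-- **All moduli.** -/
theorem main {s : ℤ} (hs : s = 1 ∨ s = -1) (k : ℕ) {ε : ℝ} (hε : 0 < ε) :
    ∃ K : ℕ, 0 < K ∧ ∀ S : Set ℤ, Inv 1 S → ∀ δ : ℝ, HD s S δ → ∀ x : ℕ, K ≤ x → ∀ w, Wt k w →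
      ∀ Q : ℕ, K * Q ≤ x → ∀ Y : ℕ → ℕ → ℕ, (∀ q c, Y q c ≤ x) →
      ∑ q ∈ Icc 1 Q, ∑ c ∈ range q, ‖cs (fn s S δ w) q c (Y q c)‖ ≤ ε * (Q * x) := by
  obtain ⟨q₀, K, κ, hq₀, hK, hκ, H⟩ := bdh ε hε
  obtain ⟨X0, h⟩ := eqd hs k hκ
  refine ⟨K + X0, by omega, fun S hS δ hδ x hx w hw Q hQ Y hY => ?_⟩
  exact H x (by omega) _ (fn_norm hs hδ (Wt_norm hw)) (h S hS δ hδ w hw x (by omega) q₀) Q
    (le_trans (Nat.mul_le_mul_right Q (by omega)) hQ) Y hY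

/-- **Pairwise coprime moduli.** -/
theorem coprime {s : ℤ} (hs : s = 1 ∨ s = -1) (k : ℕ) {ε : ℝ} (hε : 0 < ε) :
    ∃ K : ℕ, 0 < K ∧ ∀ S : Set ℤ, Inv 1 S → ∀ δ : ℝ, HD s S δ → ∀ x : ℕ, K ≤ x → ∀ w, Wt k w →
      ∀ Q : ℕ, K * Q ≤ x → ∀ M : Finset ℕ, (∀ q ∈ M, 1 ≤ q ∧ q ≤ Q) →
      (∀ q ∈ M, ∀ q' ∈ M, q ≠ q' → Nat.Coprime q q') →
      (∀ q ∈ M, ∃ Y : ℕ → ℕ, (∀ c, Y c ≤ x) ∧ ε * x < ∑ c ∈ range q, ‖cs (fn s S δ w) q c (Y c)‖) →
      (M.card : ℝ) ≤ K * (1 + (Q : ℝ) ^ 2 / x) := by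
  obtain ⟨K, κ, hK, hκ, H⟩ := copr1 ε hε
  obtain ⟨X0, h⟩ := part hs k hκ
  refine ⟨K + X0, by omega, fun S hS δ hδ x hx w hw Q hQ M hM hc hb => ?_⟩
  have h1 : ∀ y ≤ x, ‖Pool.Agent.Run7.h17.BDH.FF (fn s S δ w) y 0‖ ≤ κ * x := by
    intro y hy
    have h2 := h S hS δ hδ w hw x (by omega) y hy 1 ⟨one_ne_zero⟩ 1
    have e1 : Pool.Agent.Run7.h17.BDH.FF (fn s S δ w) y 0 = ∑ n ∈ Icc 1 y, fn s S δ w n * (1 : AddChar (ZMod 1) ℂ) (n : ZMod 1) := by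
      unfold Pool.Agent.Run7.h17.BDH.FF
      apply sum_congr rfl
      intro n _
      rw [mul_zero, AddChar.one_apply]
      congr 1
      unfold Pool.Agent.Helper112.ee
      simp
    rw [e1]
    exact h2
  have h3 := H x (by omega) _ (fn_norm hs hδ (Wt_norm hw)) h1 Q (le_trans (Nat.mul_le_mul_right Q (by omega)) hQ)
    M hM hc hb
  refine h3.trans (mul_le_mul_of_nonneg_right ?_ (by positivity))
  push_cast
  linarith [Nat.cast_nonneg (α := ℝ) X0]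

end Pool.Agent.Run7.h15.CB
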